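import Pool.Agent.Lib.MP_4fbe7c_an.WH.H76.Vst
import Pool.Agent.Lib.MP_4fbe7c_an.FC.H16.PA
import Pool.Agent.Lib.MP_4fbe7c_an.SD.Logg

/-!
Module SIN (helper76) of the project WH: the variance of `T_k` in the mean.
-/

set_option autoImplicit false

open Set MeasureTheory

namespace Pool.Agent.Lib.MP_4fbe7c_an.WH.H76

open Pool.Agent.Lib.MP_4fbe7c_an.SD Pool.Agent.Lib.MP_4fbe7c_an.FC

theorem sinm (yiz : YIzStatement) (vst' : VStStatement) (qde : QDeStatement)
    (sde : SDeStatement) : SInStatement := by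
  intro L b κ Cy a hL hb hκ hCy ha
  refine ⟨4 * b * Real.exp κ + 2 * L ^ 2 * Cy / a + 2 * L * (2 * b + 4 * b * Real.exp κ) * κ,
    by positivity, ?_⟩
  intro ε m μ N d u v w k hc hw hk hda
  refine ⟨fun t => 2 * Pf L m d u v k t -
    L * Cy * ε ^ 2 * (yy L u v k t + 2 / a * Vs L b u t), fun t t0 hreg => ?_⟩
  have hε := hw.hε
  have hε1 := hw.hε1
  have hkP : k ∈ PS L u := mem_PS.2 hk
  have hexp := Real.exp_pos κ
  -- facts from the other modules
  obtain ⟨V0, V', hV', hVle⟩ := vst' L b ε m μ N d u v w hc hw ⟨k, hk⟩ t t0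
  obtain ⟨⟨y', hy', hyle⟩, -, -⟩ := yiz L (2 * b) m N d u v w k hc hk t t0
  obtain ⟨-, he2⟩ := qde L b ε κ Cy m N d u v w t k hc t0 hreg hkP
  obtain ⟨P', hP', hSd⟩ := sde L (2 * b) m N d u v w k hc hk t t0
  have hdk := hc.hd k
  have hak := hda k hk
  have hy0 : 0 ≤ yy L u v k t :=
    intervalIntegral.integral_nonneg hL.le fun x _ => sq_nonneg _
  have hYw : 0 ≤ Yw L d u v t := by
    refine Finset.sum_nonneg fun i _ => ?_
    have h1 : 0 ≤ Wg L u t := Finset.sum_nonneg fun j _ => (Real.exp_pos _).le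
    have h2 : 0 ≤ gm L u i t := (Real.exp_pos _).le
    have h3 : 0 ≤ yy L u v i t :=
      intervalIntegral.integral_nonneg hL.le fun x _ => sq_nonneg _
    exact mul_nonneg (div_nonneg h2 h1) (mul_nonneg (hc.hd i).le h3)
  have hyk : yy L u v k t ≤ Cy * ε ^ 2 / a := by
    rw [le_div_iff₀ ha]
    have := hreg.y k hkP
    nlinarith
  -- sums of the species
  have hpos : ∀ i ∈ PS L u, ∀ x ∈ Icc 0 L, 0 < u i t x := fun i hi => mem_PS.1 hi t t0
  have hsumPS : ∀ x ∈ Icc 0 L, ∑ i ∈ PS L u, u i t x ≤ 4 * b * Real.exp κ := by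
    intro x hx
    calc ∑ i ∈ PS L u, u i t x ≤ ∑ i ∈ PS L u, gm L u i t * Real.exp κ :=
          Finset.sum_le_sum fun i hi => hreg.up i hi x hx
      _ = Wg L u t * Real.exp κ := by rw [← Finset.sum_mul]; rfl
      _ ≤ 4 * b * Real.exp κ := mul_le_mul_of_nonneg_right hreg.wg hexp.le
  have hsum : ∀ x ∈ Icc 0 L, ∑ i, u i t x = ∑ i ∈ PS L u, u i t x := by
    intro x hx
    symm
    refine Finset.sum_subset (Finset.subset_univ _) fun i _ hi => ?_
    rcases (H16.pa L (2 * b) m N d u v w hc i).1 with h1 | h1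
    · exact absurd (mem_PS.2 h1) hi
    · exact h1 t t0.le x hx
  have hsum0 : ∀ x ∈ Icc 0 L, 0 ≤ ∑ i ∈ PS L u, u i t x := fun x hx =>
    Finset.sum_nonneg fun i hi => (hpos i hi x hx).le
  -- continuity
  have cu : ∀ i, ContinuousOn (u i t) (Icc 0 L) := fun i =>
    slice (A := Ici 0) (hc.sol.cu i) (mem_Ici.2 t0.le)
  have cR : ContinuousOn (fun x => m x - ∑ i, u i t x) (Icc 0 L) :=
    hc.hm.sub (continuousOn_finsetSum _ fun i _ => cu i)
  have cT : ∀ i ∈ PS L u, ContinuousOn (fun x => Tt m d u w i t x) (Icc 0 L) := fun i hi =>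
    (continuousOn_const.mul ((slice (hc.sol.cw i) (mem_Ioi.2 t0)).div (cu i)
      fun x hx => (hpos i hi x hx).ne')).add cR
  have cxi : ContinuousOn (fun x => Real.log (u k t x) - lg L u k t / L) (Icc 0 L) :=
    ((cu k).log fun x hx => (hpos k hkP x hx).ne').sub continuousOn_const
  have cS : ContinuousOn (fun x => ∑ i ∈ PS L u, u i t x * Tt m d u w i t x) (Icc 0 L) :=
    continuousOn_finsetSum _ fun i hi => (cu i).mul (cT i hi)
  have iq : ∀ i ∈ PS L u, IntervalIntegrable (fun x => u i t x * Tt m d u w i t x ^ 2)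
      volume 0 L := fun i hi => ((cu i).mul ((cT i hi).pow 2)).intervalIntegrable_of_Icc hL.le
  have cS2 : ContinuousOn (fun x => ∑ i ∈ PS L u, u i t x * Tt m d u w i t x ^ 2) (Icc 0 L) :=
    continuousOn_finsetSum _ fun i hi => (cu i).mul ((cT i hi).pow 2)
  have iS2 : IntervalIntegrable (fun x => ∑ i ∈ PS L u, u i t x * Tt m d u w i t x ^ 2)
      volume 0 L := cS2.intervalIntegrable_of_Icc hL.le
  have iSx : IntervalIntegrable (fun x => (∑ i ∈ PS L u, u i t x * Tt m d u w i t x) *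
      (Real.log (u k t x) - lg L u k t / L)) volume 0 L :=
    (cS.mul cxi).intervalIntegrable_of_Icc hL.le
  have hA2 : A2 L m d u w t = ∫ x in (0)..L, ∑ i ∈ PS L u, u i t x * Tt m d u w i t x ^ 2 := by
    rw [intervalIntegral.integral_finsetSum iq]
    rfl
  -- the cross term
  have hcross : 2 * (∫ x in (0)..L, (∑ i ∈ PS L u, u i t x * Tt m d u w i t x) *
      (Real.log (u k t x) - lg L u k t / L)) ≤
      4 * b * Real.exp κ / ε * A2 L m d u w t + ε * L ^ 2 * yy L u v k t := by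
    rw [hA2, ← intervalIntegral.integral_const_mul]
    have e1 : 4 * b * Real.exp κ / ε *
        (∫ x in (0)..L, ∑ i ∈ PS L u, u i t x * Tt m d u w i t x ^ 2) +
        ε * L ^ 2 * yy L u v k t = ∫ x in (0)..L, (4 * b * Real.exp κ / ε *
          (∑ i ∈ PS L u, u i t x * Tt m d u w i t x ^ 2) + ε * L * yy L u v k t) := by
      rw [intervalIntegral.integral_add (iS2.const_mul _) intervalIntegrable_const,
        intervalIntegral.integral_const_mul, intervalIntegral.integral_const]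
      simp only [sub_zero, smul_eq_mul]
      ring
    rw [e1]
    refine intervalIntegral.integral_mono_on hL.le (iSx.const_mul 2)
      ((iS2.const_mul _).add intervalIntegrable_const) fun x hx => ?_
    have c1 : (∑ i ∈ PS L u, u i t x * Tt m d u w i t x) ^ 2 ≤
        (∑ i ∈ PS L u, u i t x) * ∑ i ∈ PS L u, u i t x * Tt m d u w i t x ^ 2 :=
      Finset.sum_sq_le_sum_mul_sum_of_sq_le_mul _ (fun i hi => (hpos i hi x hx).le)
        (fun i hi => mul_nonneg (hpos i hi x hx).le (sq_nonneg _)) fun i _ => le_of_eq (by ring)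
    have c2 : 0 ≤ ∑ i ∈ PS L u, u i t x * Tt m d u w i t x ^ 2 :=
      Finset.sum_nonneg fun i hi => mul_nonneg (hpos i hi x hx).le (sq_nonneg _)
    have c3 := mul_le_mul_of_nonneg_right (hsumPS x hx) c2
    have c4 := hreg.xs k hkP x hx
    obtain ⟨S, hS⟩ : ∃ S, S = ∑ i ∈ PS L u, u i t x * Tt m d u w i t x := ⟨_, rfl⟩
    obtain ⟨Q, hQ⟩ : ∃ Q, Q = ∑ i ∈ PS L u, u i t x * Tt m d u w i t x ^ 2 := ⟨_, rfl⟩
    obtain ⟨X, hX⟩ : ∃ X, X = Real.log (u k t x) - lg L u k t / L := ⟨_, rfl⟩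
    rw [← hS, ← hQ] at c1
    rw [← hQ] at c3
    rw [← hX] at c4
    show 2 * ((∑ i ∈ PS L u, u i t x * Tt m d u w i t x) *
      (Real.log (u k t x) - lg L u k t / L)) ≤ 4 * b * Real.exp κ / ε *
        (∑ i ∈ PS L u, u i t x * Tt m d u w i t x ^ 2) + ε * L * yy L u v k t
    rw [← hS, ← hQ, ← hX]
    have c5 : S ^ 2 / ε ≤ 4 * b * Real.exp κ / ε * Q := by
      rw [div_mul_eq_mul_div]
      exact div_le_div_of_nonneg_right (c1.trans c3) hε.le
    have c6 : ε * X ^ 2 ≤ ε * (L * yy L u v k t) := mul_le_mul_of_nonneg_left c4 hε.le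
    have c7 : 0 ≤ (S - ε * X) ^ 2 / ε := by positivity
    have c8 : (S - ε * X) ^ 2 / ε = S ^ 2 / ε - 2 * (S * X) + ε * X ^ 2 := by
      field_simp
      ring
    linarith
  constructor
  · -- upper bound for `G`
    have e1 : (∫ x in (0)..L, (m x - ∑ i, u i t x) * (Real.log (u k t x) - lg L u k t / L)) ≤
        L * ((2 * b + 4 * b * Real.exp κ) * κ) := by
      have e2 : L * ((2 * b + 4 * b * Real.exp κ) * κ) =
          ∫ _ in (0)..L, (2 * b + 4 * b * Real.exp κ) * κ := by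
        rw [intervalIntegral.integral_const]
        simp only [sub_zero, smul_eq_mul]
      rw [e2]
      refine intervalIntegral.integral_mono_on hL.le
        ((cR.mul cxi).intervalIntegrable_of_Icc hL.le) intervalIntegrable_const fun x hx => ?_
      have a1 := abs_le.1 (hc.hM x hx)
      have a2 := hsumPS x hx
      have a3 := hsum0 x hx
      have a4 : |m x - ∑ i, u i t x| ≤ 2 * b + 4 * b * Real.exp κ := by
        rw [hsum x hx, abs_le]
        constructor <;> linarith [a1.1, a1.2]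
      calc (m x - ∑ i, u i t x) * (Real.log (u k t x) - lg L u k t / L)
          ≤ |(m x - ∑ i, u i t x) * (Real.log (u k t x) - lg L u k t / L)| := le_abs_self _
        _ = |m x - ∑ i, u i t x| * |Real.log (u k t x) - lg L u k t / L| := abs_mul _ _
        _ ≤ (2 * b + 4 * b * Real.exp κ) * κ :=
          mul_le_mul a4 (hreg.xi k hkP x hx) (abs_nonneg _) (by positivity)
    have e3 : 0 ≤ L * Cy * ε ^ 2 * (yy L u v k t + 2 / a * Vs L b u t) := by positivity
    have e4 : 0 ≤ d k / 2 * yy L u v k t := by positivity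
    have e5 : 0 ≤ 4 * b * Real.exp κ + 2 * L ^ 2 * Cy / a := by positivity
    show 2 * Pf L m d u v k t - L * Cy * ε ^ 2 * (yy L u v k t + 2 / a * Vs L b u t) ≤ _
    unfold Pf
    linarith
  · refine ⟨_, (hP'.const_mul 2).sub ((hy'.add (hV'.const_mul (2 / a))).const_mul
      (L * Cy * ε ^ 2)), ?_⟩
    -- the quartic term
    have hR2 : 0 ≤ R2 L m u t :=
      intervalIntegral.integral_nonneg hL.le fun x _ => sq_nonneg _
    have hA0 : 0 ≤ A2 L m d u w t := Finset.sum_nonneg fun i hi =>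
      intervalIntegral.integral_nonneg hL.le fun x hx =>
        mul_nonneg (hpos i hi x hx).le (sq_nonneg _)
    have f1 : d k * zq L u v w k t ≤ -y' + R2 L m u t / a := by
      have : R2 L m u t / d k ≤ R2 L m u t / a := div_le_div_of_nonneg_left hR2 ha hak
      linarith
    have f2 : R2 L m u t ≤ -(2 * V') + ε ^ 2 * L := by nlinarith [mul_nonneg hb.le hYw]
    have f3 : R2 L m u t / a ≤ (-(2 * V') + ε ^ 2 * L) / a :=
      div_le_div_of_nonneg_right f2 ha.le
    have f4 : 0 ≤ L * Cy * ε ^ 2 := by positivity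
    have f5 : e2 L d u v k t ≤ L * Cy * ε ^ 2 * (-y' + (-(2 * V') + ε ^ 2 * L) / a) :=
      he2.trans (mul_le_mul_of_nonneg_left (by linarith) f4)
    have f6 : L * Cy * ε ^ 2 * (-y' + (-(2 * V') + ε ^ 2 * L) / a) =
        -(L * Cy * ε ^ 2 * (y' + 2 / a * V')) + L ^ 2 * Cy / a * ε ^ 4 := by
      field_simp
      ring
    have f7 : ε ^ 4 ≤ ε ^ 3 := pow_le_pow_of_le_one hε.le hε1 (by norm_num)
    have f8 : L ^ 2 * Cy / a * ε ^ 4 ≤ L ^ 2 * Cy / a * ε ^ 3 :=
      mul_le_mul_of_nonneg_left f7 (by positivity)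
    have f9 : ε * L ^ 2 * yy L u v k t ≤ L ^ 2 * Cy / a * ε ^ 3 := by
      have := mul_le_mul_of_nonneg_left hyk (show 0 ≤ ε * L ^ 2 by positivity)
      have e : ε * L ^ 2 * (Cy * ε ^ 2 / a) = L ^ 2 * Cy / a * ε ^ 3 := by
        field_simp
      linarith
    have g1 : 0 ≤ (2 * L ^ 2 * Cy / a + 2 * L * (2 * b + 4 * b * Real.exp κ) * κ) / ε *
        A2 L m d u w t := by positivity
    have g2 : (4 * b * Real.exp κ + 2 * L ^ 2 * Cy / a +
        2 * L * (2 * b + 4 * b * Real.exp κ) * κ) / ε * A2 L m d u w t =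
        4 * b * Real.exp κ / ε * A2 L m d u w t +
          (2 * L ^ 2 * Cy / a + 2 * L * (2 * b + 4 * b * Real.exp κ) * κ) / ε *
            A2 L m d u w t := by ring
    have g3 : 0 ≤ (4 * b * Real.exp κ + 2 * L * (2 * b + 4 * b * Real.exp κ) * κ) * ε ^ 3 := by
      positivity
    have g4 : (4 * b * Real.exp κ + 2 * L ^ 2 * Cy / a +
        2 * L * (2 * b + 4 * b * Real.exp κ) * κ) * ε ^ 3 =
        2 * (L ^ 2 * Cy / a * ε ^ 3) +
          (4 * b * Real.exp κ + 2 * L * (2 * b + 4 * b * Real.exp κ) * κ) * ε ^ 3 := by ring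
    rw [g2, g4]
    linarith

end Pool.Agent.Lib.MP_4fbe7c_an.WH.H76
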