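import Pool.Agent.Lib.MP_4fbe7c_an.WH.Iface
import Pool.Agent.Lib.MP_4fbe7c_an.FC.H21.Mass

/-!
Module VST (helper76) of the project WH: the functional `Vs`.
-/

set_option autoImplicit false

open Set MeasureTheory

namespace Pool.Agent.Lib.MP_4fbe7c_an.WH.H76

open Pool.Agent.Lib.MP_4fbe7c_an.SD Pool.Agent.Lib.MP_4fbe7c_an.FC

theorem mem_PS {L : ℝ} {N : ℕ} {u : Fin N → ℝ → ℝ → ℝ} {k : Fin N} :
    k ∈ PS L u ↔ Pres L u k := by
  simp [PS]

theorem vst (lse : LseStatement) : VStStatement := by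
  intro L b ε m μ N d u v w h hw hex t t0
  have hL := h.hL
  have hb := hw.hb
  have hne : (PS L u).Nonempty := by
    obtain ⟨k, hk⟩ := hex
    exact ⟨k, mem_PS.2 hk⟩
  obtain ⟨l1, l2⟩ := lse L (2 * b) m N d u v w (PS L u) h hne (fun k hk => mem_PS.1 hk) t t0
  have hW : 0 < Wg L u t := Finset.sum_pos (fun k _ => Real.exp_pos _) hne
  have l1' : L * Wg L u t ≤ mass L u t := l1
  constructor
  · have e1 : Real.log (Wg L u t / b) ≤ Wg L u t / b - 1 :=
      Real.log_le_sub_one_of_pos (div_pos hW hb)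
    rw [Real.log_div hW.ne' hb.ne'] at e1
    have e2 : b * (Real.log (Wg L u t) - Real.log b) ≤ Wg L u t - b := by
      have := mul_le_mul_of_nonneg_left e1 hb.le
      have e3 : b * (Wg L u t / b - 1) = Wg L u t - b := by field_simp
      linarith
    have e3 := mul_le_mul_of_nonneg_left e2 hL.le
    unfold Vs
    nlinarith
  · have hU : ContinuousOn (fun x => ∑ k, u k t x) (Icc 0 L) :=
      continuousOn_finsetSum _ fun k _ => slice (A := Ici 0) (h.sol.cu k) (mem_Ici.2 t0.le)
    have hR : ContinuousOn (fun x => m x - ∑ k, u k t x) (Icc 0 L) := h.hm.sub hU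
    have iUR : IntervalIntegrable (fun x => (∑ k, u k t x) * (m x - ∑ k, u k t x)) volume 0 L :=
      (hU.mul hR).intervalIntegrable_of_Icc hL.le
    have iR : IntervalIntegrable (fun x => m x - ∑ k, u k t x) volume 0 L :=
      hR.intervalIntegrable_of_Icc hL.le
    have iR2 : IntervalIntegrable (fun x => (m x - ∑ k, u k t x) ^ 2) volume 0 L :=
      (hR.pow 2).intervalIntegrable_of_Icc hL.le
    have d1 := H21.mass_deriv h t0
    have hder := ((d1.sub (l2.const_mul b)).sub_const (L * (b - b * Real.log b)))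
    refine ⟨_, hder, ?_⟩
    have e1 : (∫ x in (0)..L, (∑ k, u k t x) * (m x - ∑ k, u k t x)) - b * R1 L m u t ≤
        -(R2 L m u t / 2) + ε ^ 2 * L / 2 := by
      have a1 : (∫ x in (0)..L, (∑ k, u k t x) * (m x - ∑ k, u k t x)) - b * R1 L m u t =
          ∫ x in (0)..L, ((∑ k, u k t x) * (m x - ∑ k, u k t x) -
            b * (m x - ∑ k, u k t x)) := by
        rw [intervalIntegral.integral_sub iUR (iR.const_mul b),
          intervalIntegral.integral_const_mul]
        rfl
      have a2 : -(R2 L m u t / 2) + ε ^ 2 * L / 2 =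
          ∫ x in (0)..L, (-(1 / 2) * (m x - ∑ k, u k t x) ^ 2 + ε ^ 2 / 2) := by
        rw [intervalIntegral.integral_add (iR2.const_mul _) intervalIntegrable_const,
          intervalIntegral.integral_const_mul, intervalIntegral.integral_const]
        simp only [sub_zero, smul_eq_mul, R2]
        ring
      rw [a1, a2]
      refine intervalIntegral.integral_mono_on hL.le (iUR.sub (iR.const_mul b))
        ((iR2.const_mul _).add intervalIntegrable_const) fun x hx => ?_
      have hm := hw.hm x hx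
      have hμ := abs_le.1 (hw.hμ x hx)
      obtain ⟨U, hU'⟩ : ∃ U, U = ∑ k, u k t x := ⟨_, rfl⟩
      rw [← hU', hm]
      have hμ2 : μ x ^ 2 ≤ 1 := by nlinarith [hμ.1, hμ.2]
      have hε2 : 0 ≤ ε ^ 2 := sq_nonneg ε
      nlinarith [sq_nonneg (ε * μ x - (b + ε * μ x - U)), mul_le_mul_of_nonneg_left hμ2 hε2]
    have e2 : (∑ k ∈ PS L u, gm L u k t / (∑ i ∈ PS L u, gm L u i t) * (d k * yy L u v k t)) =
        Yw L d u v t := rfl
    rw [e2]
    linarith [e1]

end Pool.Agent.Lib.MP_4fbe7c_an.WH.H76
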