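import Pool.Agent.Lib.MP_4fbe7c_an.WH.Iface
import Pool.Agent.Lib.MP_4fbe7c_an.FC.H82.Yder

/-!
Module YDW (helper76) of the project WH: the time derivative of `∫ h_x ^ 2 / h` without mixed
derivatives (adapted from `FC/H82/Yder.lean`).
-/

set_option autoImplicit false

open Set Filter Topology MeasureTheory intervalIntegral
open scoped Interval

namespace Pool.Agent.Lib.MP_4fbe7c_an.WH.H76

open Pool.Agent.Lib.MP_4fbe7c_an.SD Pool.Agent.Lib.MP_4fbe7c_an.FC.H82

theorem ydw : YDwStatement := by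
  intro L h h1 h2 ht hL ch ch1 ch2 cht hp d1 d2 hb dt t t0
  have hK : IsCompact (Icc (t / 2) (2 * t) ×ˢ Icc 0 L) := isCompact_Icc.prod isCompact_Icc
  have hsub : Icc (t / 2) (2 * t) ×ˢ Icc 0 L ⊆ Ioi 0 ×ˢ Icc 0 L := by
    rintro ⟨s, x⟩ ⟨hs, hx⟩
    exact ⟨lt_of_lt_of_le (by linarith) hs.1, hx⟩
  have s0 : ∀ s, 0 < s → ContinuousOn (h s) (Icc 0 L) := fun s hs => slice ch (mem_Ioi.2 hs)
  have s1 : ∀ s, 0 < s → ContinuousOn (h1 s) (Icc 0 L) := fun s hs => slice ch1 (mem_Ioi.2 hs)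
  have s2 : ∀ s, 0 < s → ContinuousOn (h2 s) (Icc 0 L) := fun s hs => slice ch2 (mem_Ioi.2 hs)
  have q0 : ContinuousOn (fun p : ℝ × ℝ => h t p.2) (Ioi (0 : ℝ) ×ˢ Icc 0 L) :=
    (s0 t t0).comp continuousOn_snd fun _ hp' => hp'.2
  have q1 : ContinuousOn (fun p : ℝ × ℝ => h1 t p.2) (Ioi (0 : ℝ) ×ˢ Icc 0 L) :=
    (s1 t t0).comp continuousOn_snd fun _ hp' => hp'.2
  have q2 : ContinuousOn (fun p : ℝ × ℝ => h2 t p.2) (Ioi (0 : ℝ) ×ˢ Icc 0 L) :=
    (s2 t t0).comp continuousOn_snd fun _ hp' => hp'.2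
  -- the kernel
  obtain ⟨K, hKd⟩ : ∃ K : ℝ → ℝ → ℝ, ∀ s x, K s x = (h2 s x + h2 t x) / h t x -
      (h1 s x + h1 t x) * h1 t x / h t x ^ 2 + h1 s x ^ 2 / (h s x * h t x) :=
    ⟨fun s x => (h2 s x + h2 t x) / h t x - (h1 s x + h1 t x) * h1 t x / h t x ^ 2 +
      h1 s x ^ 2 / (h s x * h t x), fun _ _ => rfl⟩
  have cK : ContinuousOn (fun p : ℝ × ℝ => K p.1 p.2) (Ioi 0 ×ˢ Icc 0 L) := by
    have c : ContinuousOn (fun p : ℝ × ℝ => (h2 p.1 p.2 + h2 t p.2) / h t p.2 -
        (h1 p.1 p.2 + h1 t p.2) * h1 t p.2 / h t p.2 ^ 2 +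
        h1 p.1 p.2 ^ 2 / (h p.1 p.2 * h t p.2)) (Ioi 0 ×ˢ Icc 0 L) := by
      refine (((ch2.add q2).div q0 fun p hp' => (hp t t0 p.2 hp'.2).ne').sub
        (((ch1.add q1).mul q1).div (q0.pow 2) fun p hp' =>
          pow_ne_zero 2 (hp t t0 p.2 hp'.2).ne')).add
        ((ch1.pow 2).div (ch.mul q0) fun p hp' =>
          mul_ne_zero (hp p.1 hp'.1 p.2 hp'.2).ne' (hp t t0 p.2 hp'.2).ne')
    exact c.congr fun p _ => hKd p.1 p.2
  obtain ⟨B, hB⟩ := hK.exists_bound_of_continuousOn (cht.mono hsub)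
  obtain ⟨B2, hB2⟩ := hK.exists_bound_of_continuousOn (cK.mono hsub)
  have htm : t ∈ Icc (t / 2) (2 * t) := ⟨by linarith, by linarith⟩
  have hball : Icc (t / 2) (2 * t) ∈ 𝓝 t := Icc_mem_nhds (by linarith) (by linarith)
  have hball' : ∀ᶠ s in 𝓝[≠] t, s ∈ Icc (t / 2) (2 * t) := nhdsWithin_le_nhds hball
  have hne : ∀ᶠ s in 𝓝[≠] t, s ≠ t := self_mem_nhdsWithin
  have hpos : ∀ s ∈ Icc (t / 2) (2 * t), 0 < s := fun s hs => lt_of_lt_of_le (by linarith) hs.1
  have hIoc : Ι (0:ℝ) L ⊆ Icc 0 L := by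
    rw [uIoc_of_le hL.le]; exact Ioc_subset_Icc_self
  have sK : ∀ s, 0 < s → ContinuousOn (K s) (Icc 0 L) := fun s hs => slice cK (mem_Ioi.2 hs)
  have key : ∀ s, 0 < s → (∫ x in (0)..L, h1 s x ^ 2 / h s x) -
      (∫ x in (0)..L, h1 t x ^ 2 / h t x) = -∫ x in (0)..L, K s x * (h s x - h t x) := by
    intro s hs
    have i1 : IntervalIntegrable (fun x => h1 s x ^ 2 / h s x) volume 0 L :=
      (((s1 s hs).pow 2).div (s0 s hs) fun x hx =>
        (hp s hs x hx).ne').intervalIntegrable_of_Icc hL.le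
    have i2 : IntervalIntegrable (fun x => h1 t x ^ 2 / h t x) volume 0 L :=
      (((s1 t t0).pow 2).div (s0 t t0) fun x hx =>
        (hp t t0 x hx).ne').intervalIntegrable_of_Icc hL.le
    have cF' : ContinuousOn (fun x => ((h2 s x + h2 t x) * h t x -
        (h1 s x + h1 t x) * h1 t x) / h t x ^ 2) (Icc 0 L) :=
      ((((s2 s hs).add (s2 t t0)).mul (s0 t t0)).sub
        (((s1 s hs).add (s1 t t0)).mul (s1 t t0))).div ((s0 t t0).pow 2) fun x hx =>
          pow_ne_zero 2 (hp t t0 x hx).ne'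
    have cG : ContinuousOn (fun x => h s x - h t x) (Icc 0 L) := (s0 s hs).sub (s0 t t0)
    have cG' : ContinuousOn (fun x => h1 s x - h1 t x) (Icc 0 L) := (s1 s hs).sub (s1 t t0)
    have cF : ContinuousOn (fun x => (h1 s x + h1 t x) / h t x) (Icc 0 L) :=
      ((s1 s hs).add (s1 t t0)).div (s0 t t0) fun x hx => (hp t t0 x hx).ne'
    have e := parts hL (F := fun x => (h1 s x + h1 t x) / h t x)
      (F' := fun x => ((h2 s x + h2 t x) * h t x - (h1 s x + h1 t x) * h1 t x) / h t x ^ 2)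
      (G := fun x => h s x - h t x) (G' := fun x => h1 s x - h1 t x)
      (fun x hx => ((d2 s hs x hx).add (d2 t t0 x hx)).div (d1 t t0 x hx) (hp t t0 x hx).ne')
      (fun x hx => (d1 s hs x hx).sub (d1 t t0 x hx)) cF' cG'
      (by simp only [(hb s hs).1, (hb t t0).1, add_zero, zero_div])
      (by simp only [(hb s hs).2, (hb t t0).2, add_zero, zero_div])
    have cR : ContinuousOn (fun x => h1 s x ^ 2 / (h s x * h t x) * (h s x - h t x))
        (Icc 0 L) :=
      (((s1 s hs).pow 2).div ((s0 s hs).mul (s0 t t0)) fun x hx =>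
        mul_ne_zero (hp s hs x hx).ne' (hp t t0 x hx).ne').mul cG
    rw [← intervalIntegral.integral_sub i1 i2]
    have e1 : ∫ x in (0)..L, (h1 s x ^ 2 / h s x - h1 t x ^ 2 / h t x) =
        ∫ x in (0)..L, ((h1 s x + h1 t x) / h t x * (h1 s x - h1 t x) -
          h1 s x ^ 2 / (h s x * h t x) * (h s x - h t x)) := by
      refine intervalIntegral.integral_congr fun x hx => ?_
      rw [uIcc_of_le hL.le] at hx
      have n1 := (hp s hs x hx).ne'
      have n2 := (hp t t0 x hx).ne'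
      show h1 s x ^ 2 / h s x - h1 t x ^ 2 / h t x =
        (h1 s x + h1 t x) / h t x * (h1 s x - h1 t x) -
          h1 s x ^ 2 / (h s x * h t x) * (h s x - h t x)
      field_simp
      ring
    have iA : IntervalIntegrable (fun x => (h1 s x + h1 t x) / h t x * (h1 s x - h1 t x))
        volume 0 L := (cF.mul cG').intervalIntegrable_of_Icc hL.le
    have iB : IntervalIntegrable (fun x => ((h2 s x + h2 t x) * h t x -
        (h1 s x + h1 t x) * h1 t x) / h t x ^ 2 * (h s x - h t x)) volume 0 L :=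
      (cF'.mul cG).intervalIntegrable_of_Icc hL.le
    have iC := cR.intervalIntegrable_of_Icc (μ := volume) hL.le
    rw [e1, intervalIntegral.integral_sub iA iC, e, ← neg_add',
      ← intervalIntegral.integral_add iB iC]
    congr 1
    refine intervalIntegral.integral_congr fun x hx => ?_
    rw [uIcc_of_le hL.le] at hx
    have n1 := (hp s hs x hx).ne'
    have n2 := (hp t t0 x hx).ne'
    show ((h2 s x + h2 t x) * h t x - (h1 s x + h1 t x) * h1 t x) / h t x ^ 2 *
        (h s x - h t x) + h1 s x ^ 2 / (h s x * h t x) * (h s x - h t x) =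
      K s x * (h s x - h t x)
    rw [hKd]
    field_simp
  have hlip : ∀ s ∈ Icc (t / 2) (2 * t), ∀ x ∈ Icc 0 L, |h s x - h t x| ≤ B * |s - t| := by
    intro s hs x hx
    have := Convex.norm_image_sub_le_of_norm_hasDerivWithin_le (f := fun r => h r x)
      (f' := fun r => ht r x) (s := Icc (t / 2) (2 * t)) (C := B)
      (fun r hr => (dt r (hpos r hr) x hx).hasDerivWithinAt)
      (fun r hr => hB (r, x) ⟨hr, hx⟩) (convex_Icc _ _) htm hs
    simpa [Real.norm_eq_abs] using this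
  have lim : Tendsto (fun s => ∫ x in (0)..L, K s x * ((h s x - h t x) / (s - t)))
      (𝓝[≠] t) (𝓝 (∫ x in (0)..L, K t x * ht t x)) := by
    refine intervalIntegral.tendsto_integral_filter_of_dominated_convergence
      (bound := fun _ => B2 * B) ?_ ?_ ?_ ?_
    · filter_upwards [hball'] with s hs
      have c : ContinuousOn (fun x => K s x * ((h s x - h t x) / (s - t))) (Icc 0 L) :=
        (sK s (hpos s hs)).mul (((s0 s (hpos s hs)).sub (s0 t t0)).div_const _)
      exact (c.mono hIoc).aestronglyMeasurable measurableSet_uIoc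
    · filter_upwards [hball', hne] with s hs hst
      refine Eventually.of_forall fun x hx => ?_
      have hx' := hIoc hx
      have hst' : 0 < |s - t| := abs_pos.2 (sub_ne_zero.2 hst)
      rw [Real.norm_eq_abs, abs_mul, abs_div]
      have e1 : |K s x| ≤ B2 := hB2 (s, x) ⟨hs, hx'⟩
      have e2 : |h s x - h t x| / |s - t| ≤ B := by
        rw [div_le_iff₀ hst']
        exact hlip s hs x hx'
      exact mul_le_mul e1 e2 (by positivity) ((abs_nonneg _).trans e1)
    · exact intervalIntegrable_const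
    · refine Eventually.of_forall fun x hx => ?_
      have hx' := hIoc hx
      have c2 : Tendsto (fun s => K s x) (𝓝[≠] t) (𝓝 (K t x)) := by
        have c3 : ContinuousOn (fun s : ℝ => K s x) (Ioi 0) :=
          cK.comp (f := fun s : ℝ => ((s, x) : ℝ × ℝ)) (by fun_prop)
            fun s hs => mk_mem_prod hs hx'
        exact (c3.continuousAt (Ioi_mem_nhds t0)).tendsto.mono_left nhdsWithin_le_nhds
      have c4 : Tendsto (fun s => (h s x - h t x) / (s - t)) (𝓝[≠] t) (𝓝 (ht t x)) := by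
        have := (hasDerivAt_iff_tendsto_slope.1 (dt t t0 x hx'))
        refine this.congr fun s => ?_
        rw [slope_def_field]
      exact c2.mul c4
  rw [hasDerivAt_iff_tendsto_slope]
  have e2 : -(∫ x in (0)..L, (2 * h2 t x / h t x - h1 t x ^ 2 / h t x ^ 2) * ht t x) =
      -∫ x in (0)..L, K t x * ht t x := by
    congr 1
    refine intervalIntegral.integral_congr fun x hx => ?_
    rw [uIcc_of_le hL.le] at hx
    have n2 := (hp t t0 x hx).ne'
    show (2 * h2 t x / h t x - h1 t x ^ 2 / h t x ^ 2) * ht t x = K t x * ht t x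
    rw [hKd]
    congr 1
    field_simp
    ring
  rw [e2]
  refine lim.neg.congr' ?_
  filter_upwards [hball', hne] with s hs hst
  rw [slope_def_field, key s (hpos s hs), neg_div, ← intervalIntegral.integral_div]
  congr 1
  refine intervalIntegral.integral_congr fun x _ => ?_
  show K s x * ((h s x - h t x) / (s - t)) = K s x * (h s x - h t x) / (s - t)
  ring

end Pool.Agent.Lib.MP_4fbe7c_an.WH.H76
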